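import Mathlib
import Pool.Agent.H90.GdDefs
import Pool.Agent.H90.GdG

namespace Pool.Agent.Results.MP_df984a_an.Infinite

open MeasureTheory Pool.Agent.H90.Gd

theorem result (G : Type) [Group G] [TopologicalSpace G] [IsTopologicalGroup G]
    [LocallyCompactSpace G] [T2Space G] [NoncompactSpace G] [MeasurableSpace G] [BorelSpace G]
    (μ : Measure G) [μ.IsHaarMeasure] [μ.Regular] (n : ℕ) : ¬HasRes μ n :=
  no_res n

end Pool.Agent.Results.MP_df984a_an.Infinite
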